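import Mathlib

/-!
# Extension of a representation from a subgroup of index prime to the degree
-/

set_option autoImplicit false
set_option linter.unusedSectionVars false

namespace Pool.Agent.Q227.KM

open Module

variable {k V Γ : Type} [Field k] [AddCommGroup V] [Module k V] [Group Γ]

/-- scalars -/
noncomputable def sc : kˣ →* (V →ₗ[k] V)ˣ :=
  Units.map (algebraMap k (V →ₗ[k] V) : k →* (V →ₗ[k] V))

theorem sc_val (c : kˣ) : ((sc c : (V →ₗ[k] V)ˣ) : V →ₗ[k] V) = (c : k) • LinearMap.id := by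
  change algebraMap k (V →ₗ[k] V) (c : k) = _
  rw [Algebra.algebraMap_eq_smul_one]
  rfl

theorem sc_comm (c : kˣ) (A : (V →ₗ[k] V)ˣ) : sc c * A = A * sc c := by
  apply Units.ext
  rw [Units.val_mul, Units.val_mul, sc_val]
  refine LinearMap.ext fun v => ?_
  change (c : k) • (A : V →ₗ[k] V) v = (A : V →ₗ[k] V) ((c : k) • v)
  rw [map_smul]

theorem sc_inj [Nontrivial V] : Function.Injective (sc : kˣ → (V →ₗ[k] V)ˣ) := by
  intro c d h
  obtain ⟨v, hv⟩ := exists_ne (0 : V)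
  have h1 := congrArg (fun A : (V →ₗ[k] V)ˣ => (A : V →ₗ[k] V) v) h
  simp only [sc_val] at h1
  change (c : k) • v = (d : k) • v at h1
  exact Units.ext (smul_left_injective k hv h1)

/-- `r` is multiplicative on `U` -/
def IsMulOn (U : Subgroup Γ) (r : Γ → (V →ₗ[k] V)ˣ) : Prop :=
  ∀ x ∈ U, ∀ y ∈ U, r (x * y) = r x * r y

/-- the pairs which conjugate `r` on `Δ` -/
def conjGroup (Δ : Subgroup Γ) [hΔ : Δ.Normal] (r : Γ → (V →ₗ[k] V)ˣ) :
    Subgroup (Γ × (V →ₗ[k] V)ˣ) where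
  carrier := {p | ∀ x ∈ Δ, p.2 * r x * p.2⁻¹ = r (p.1 * x * p.1⁻¹)}
  one_mem' := by
    intro x _
    change 1 * r x * 1⁻¹ = r (1 * x * 1⁻¹)
    simp
  mul_mem' := by
    intro p q hp hq x hx
    change p.2 * q.2 * r x * (p.2 * q.2)⁻¹ = r (p.1 * q.1 * x * (p.1 * q.1)⁻¹)
    have h1 := hq x hx
    have h2 := hp (q.1 * x * q.1⁻¹) (hΔ.conj_mem x hx q.1)
    rw [← h1] at h2
    have h3 : p.1 * q.1 * x * (p.1 * q.1)⁻¹ = p.1 * (q.1 * x * q.1⁻¹) * p.1⁻¹ := by group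
    rw [h3, ← h2]
    group
  inv_mem' := by
    intro p hp x hx
    change p.2⁻¹ * r x * p.2⁻¹⁻¹ = r (p.1⁻¹ * x * p.1⁻¹⁻¹)
    have h1 : p.1⁻¹ * x * p.1⁻¹⁻¹ ∈ Δ := hΔ.conj_mem x hx p.1⁻¹
    have h2 := hp _ h1
    have h3 : p.1 * (p.1⁻¹ * x * p.1⁻¹⁻¹) * p.1⁻¹ = x := by group
    rw [h3] at h2
    rw [← h2]
    group

variable {Δ U : Subgroup Γ} [hΔ : Δ.Normal] {r : Γ → (V →ₗ[k] V)ˣ}

theorem mem_conjGroup {p : Γ × (V →ₗ[k] V)ˣ} :
    p ∈ conjGroup Δ r ↔ ∀ x ∈ Δ, p.2 * r x * p.2⁻¹ = r (p.1 * x * p.1⁻¹) := Iff.rfl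

theorem one_of_mulOn (hr : IsMulOn U r) : r 1 = 1 := by
  have h1 := hr 1 U.one_mem 1 U.one_mem
  rw [mul_one] at h1
  exact left_eq_mul.1 h1

theorem inv_of_mulOn (hr : IsMulOn U r) {x : Γ} (hx : x ∈ U) : r x⁻¹ = (r x)⁻¹ := by
  have h1 := hr x⁻¹ (U.inv_mem hx) x hx
  rw [inv_mul_cancel, one_of_mulOn hr] at h1
  exact eq_inv_of_mul_eq_one_left h1.symm

theorem pow_of_mulOn (hr : IsMulOn U r) {x : Γ} (hx : x ∈ U) (j : ℕ) : r (x ^ j) = r x ^ j := by
  induction j with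
  | zero => rw [pow_zero, pow_zero, one_of_mulOn hr]
  | succ j ih => rw [pow_succ, pow_succ, hr _ (U.pow_mem hx j) x hx, ih]

theorem graph_mem (hΔU : Δ ≤ U) (hr : IsMulOn U r) {u : Γ} (hu : u ∈ U) :
    (u, r u) ∈ conjGroup Δ r := by
  intro x hx
  change r u * r x * (r u)⁻¹ = r (u * x * u⁻¹)
  rw [hr _ (U.mul_mem hu (hΔU hx)) _ (U.inv_mem hu), hr _ hu _ (hΔU hx), inv_of_mulOn hr hu]

theorem scalar_mem (c : kˣ) : ((1 : Γ), (sc c : (V →ₗ[k] V)ˣ)) ∈ conjGroup Δ r := by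
  intro x _
  change sc c * r x * (sc c)⁻¹ = r (1 * x * 1⁻¹)
  rw [sc_comm, mul_inv_cancel_right, one_mul, inv_one, mul_one]

/-- **extension from a subgroup of index prime to the degree** -/
theorem ext_group [FiniteDimensional k V] [Nontrivial V] [hUf : U.FiniteIndex] (hΔU : Δ ≤ U)
    (hr : IsMulOn U r)
    (hschur : ∀ A : (V →ₗ[k] V)ˣ, (∀ x ∈ Δ, A * r x = r x * A) → ∃ c : kˣ, A = sc c)
    (hinv : ∀ g : Γ, ∃ A : (V →ₗ[k] V)ˣ, (g, A) ∈ conjGroup Δ r)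
    (δ : Γ →* kˣ) (hδ : ∀ u ∈ U, LinearMap.det (r u : V →ₗ[k] V) = (δ u : k))
    (hcop : Nat.Coprime U.index (finrank k V)) (hroot : ∀ z : kˣ, z ^ Δ.index = 1 → z = 1) :
    ∃ R : Γ →* (V →ₗ[k] V)ˣ, (∀ u ∈ U, R u = r u) := by
  classical
  let H := conjGroup Δ r
  let fst : H →* Γ := (MonoidHom.fst Γ _).comp H.subtype
  have hfst : Function.Surjective fst := by
    intro g
    obtain ⟨A, hA⟩ := hinv g
    exact ⟨⟨(g, A), hA⟩, rfl⟩
  -- two elements over the same `g` differ by a scalar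
  have hdiff : ∀ (g : Γ) (A B : (V →ₗ[k] V)ˣ), (g, A) ∈ H → (g, B) ∈ H → ∃ c : kˣ, A = sc c * B := by
    intro g A B hA hB
    obtain ⟨c, hc⟩ := hschur (B⁻¹ * A) (fun x hx => by
      have h1 : A * r x * A⁻¹ = B * r x * B⁻¹ := (hA x hx).trans (hB x hx).symm
      have h2 : A * r x = B * r x * B⁻¹ * A := by rw [← h1]; group
      rw [mul_assoc, h2]
      group)
    refine ⟨c, ?_⟩
    rw [sc_comm, ← hc]
    group
  let U' : Subgroup H := U.comap fst
  have hidx : U'.index = U.index := Subgroup.index_comap_of_surjective U hfst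
  haveI : U'.FiniteIndex := ⟨by rw [hidx]; exact hUf.index_ne_zero⟩
  have hcex : ∀ p : U', ∃ c : kˣ, (p : H).1.2 = sc c * r (p : H).1.1 := by
    intro p
    exact hdiff (p : H).1.1 _ _ (p : H).2 (graph_mem hΔU hr p.2)
  choose cU hcU using hcex
  have hcU' : ∀ (p : U') (c : kˣ), (p : H).1.2 = sc c * r (p : H).1.1 → cU p = c := by
    intro p c h
    rw [hcU p] at h
    exact sc_inj (mul_right_cancel h)
  let ϕ : U' →* kˣ := MonoidHom.mk' cU fun p q => hcU' _ _ (by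
    change (p : H).1.2 * (q : H).1.2 = sc (cU p * cU q) * r ((p : H).1.1 * (q : H).1.1)
    have h1 : r ((p : H).1.1 * (q : H).1.1) = r (p : H).1.1 * r (q : H).1.1 := hr _ p.2 _ q.2
    rw [h1, hcU p, hcU q, map_mul, mul_assoc, ← mul_assoc (r (p : H).1.1), ← sc_comm]
    group)
  have hϕ : ∀ (p : U') (c : kˣ), (p : H).1.2 = sc c * r (p : H).1.1 → ϕ p = c := hcU'
  let V' : H →* kˣ := MonoidHom.transfer ϕ
  let i : kˣ → H := fun c => ⟨(1, sc c), scalar_mem c⟩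
  have hi : ∀ c d, i (c * d) = i c * i d := by
    intro c d
    apply Subtype.ext
    change ((1 : Γ), (sc (c * d) : (V →ₗ[k] V)ˣ)) = (1 * 1, sc c * sc d)
    rw [map_mul, mul_one]
  have hipow : ∀ c (j : ℕ), i c ^ j = i (c ^ j) := by
    intro c j
    apply Subtype.ext
    change ((1 : Γ), (sc c : (V →ₗ[k] V)ˣ)) ^ j = (1, sc (c ^ j))
    rw [Prod.pow_mk, one_pow, map_pow]
  have hicen : ∀ c (h : H), h * i c = i c * h := by
    intro c h
    apply Subtype.ext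
    change (h.1.1 * 1, h.1.2 * sc c) = (1 * h.1.1, sc c * h.1.2)
    rw [mul_one, one_mul, sc_comm]
  have hiU : ∀ c, i c ∈ U' := fun c => U.one_mem
  have hϕi : ∀ c, ϕ ⟨i c, hiU c⟩ = c := by
    intro c
    refine hϕ _ _ ?_
    change sc c = sc c * r 1
    rw [one_of_mulOn hr, mul_one]
  have hVi : ∀ c, V' (i c) = c ^ U.index := by
    intro c
    have key : ∀ (j : ℕ) (g₀ : H), g₀⁻¹ * i c ^ j * g₀ ∈ U' → g₀⁻¹ * i c ^ j * g₀ = i c ^ j := by
      intro j g₀ _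
      rw [hipow, mul_assoc, ← hicen, inv_mul_cancel_left]
    have h1 := MonoidHom.transfer_eq_pow ϕ (i c) key
    change MonoidHom.transfer ϕ (i c) = _
    rw [h1]
    have h2 : (⟨i c ^ U'.index, MonoidHom.transfer_eq_pow_aux (i c) key⟩ : U') =
        ⟨i (c ^ U.index), hiU _⟩ := by
      apply Subtype.ext
      change i c ^ U'.index = i (c ^ U.index)
      rw [hipow, hidx]
    rw [h2, hϕi]
  have hVΔ : ∀ x (hx : x ∈ Δ), V' ⟨(x, r x), graph_mem hΔU hr (hΔU hx)⟩ = 1 := by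
    intro x hx
    set p : H := ⟨(x, r x), graph_mem hΔU hr (hΔU hx)⟩ with hp
    haveI : Finite (H ⧸ U') := Subgroup.finite_quotient_of_finiteIndex
    haveI : Finite (Quotient (MulAction.orbitRel (Subgroup.zpowers p) (H ⧸ U'))) := inferInstance
    letI : Fintype (Quotient (MulAction.orbitRel (Subgroup.zpowers p) (H ⧸ U'))) :=
      Fintype.ofFinite _
    change MonoidHom.transfer ϕ p = 1
    rw [MonoidHom.transfer_eq_prod_quotient_orbitRel_zpowers_quot]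
    refine Finset.prod_eq_one fun q _ => ?_
    refine hϕ _ _ ?_
    set o : H := q.out.out with ho
    set j := Function.minimalPeriod (p • ·) q.out with hj
    have h1 : ((p ^ j : H) : Γ × (V →ₗ[k] V)ˣ) = (x ^ j, r x ^ j) := rfl
    have h2 : x ^ j ∈ Δ := Δ.pow_mem hx j
    have h3 : ((o⁻¹ * p ^ j * o : H) : Γ × (V →ₗ[k] V)ˣ) =
        (o.1.1⁻¹ * x ^ j * o.1.1, o.1.2⁻¹ * r x ^ j * o.1.2) := rfl
    change (o⁻¹ * p ^ j * o : H).1.2 = sc 1 * r (o⁻¹ * p ^ j * o : H).1.1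
    rw [h3]
    change o.1.2⁻¹ * r x ^ j * o.1.2 = sc 1 * r (o.1.1⁻¹ * x ^ j * o.1.1)
    rw [map_one, one_mul, ← pow_of_mulOn hr (hΔU hx)]
    have h4 := H.inv_mem o.2 (x ^ j) h2
    change o.1.2⁻¹ * r (x ^ j) * o.1.2⁻¹⁻¹ = r (o.1.1⁻¹ * x ^ j * o.1.1⁻¹⁻¹) at h4
    rw [inv_inv, inv_inv] at h4
    exact h4
  let φ : H →* kˣ := MonoidHom.mk'
    (fun p => Units.map (LinearMap.det : (V →ₗ[k] V) →* k) p.1.2 * (δ p.1.1)⁻¹) fun p q => by
      change Units.map (LinearMap.det : (V →ₗ[k] V) →* k) (p.1.2 * q.1.2) *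
        (δ (p.1.1 * q.1.1))⁻¹ = _
      rw [map_mul, map_mul, mul_inv]
      exact mul_mul_mul_comm _ _ _ _
  have hφi : ∀ c, φ (i c) = c ^ finrank k V := by
    intro c
    apply Units.ext
    change LinearMap.det ((sc c : (V →ₗ[k] V)ˣ) : V →ₗ[k] V) * (((δ 1)⁻¹ : kˣ) : k) = _
    rw [map_one, inv_one, Units.val_one, mul_one, sc_val, LinearMap.det_smul, LinearMap.det_id,
      mul_one, Units.val_pow_eq_pow_val]
  have hφU : ∀ u (hu : u ∈ U), φ ⟨(u, r u), graph_mem hΔU hr hu⟩ = 1 := by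
    intro u hu
    apply Units.ext
    change LinearMap.det (r u : V →ₗ[k] V) * (((δ u)⁻¹ : kˣ) : k) = _
    rw [hδ u hu, ← Units.val_mul, mul_inv_cancel]
  have hVU : ∀ u (hu : u ∈ U), V' ⟨(u, r u), graph_mem hΔU hr hu⟩ = 1 := by
    intro u hu
    apply hroot
    rw [← map_pow, ← hVΔ (u ^ Δ.index) (Subgroup.pow_index_mem Δ u)]
    congr 1
    apply Subtype.ext
    change (u ^ Δ.index, r u ^ Δ.index) = (u ^ Δ.index, r (u ^ Δ.index))
    rw [pow_of_mulOn hr hu]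
  -- the retraction
  obtain ⟨a, b, hab⟩ : ∃ a b : ℤ, a * (U.index : ℤ) + b * (finrank k V : ℤ) = 1 := by
    have h1 : IsCoprime (U.index : ℤ) (finrank k V : ℤ) := Nat.isCoprime_iff_coprime.2 hcop
    exact h1
  let π : H →* kˣ := MonoidHom.mk' (fun p => V' p ^ a * φ p ^ b) fun p q => by
    change V' (p * q) ^ a * φ (p * q) ^ b = _
    rw [map_mul, map_mul, mul_zpow, mul_zpow]
    exact mul_mul_mul_comm _ _ _ _
  have hπi : ∀ c, π (i c) = c := by
    intro c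
    change V' (i c) ^ a * φ (i c) ^ b = c
    rw [hVi, hφi, ← zpow_natCast, ← zpow_natCast, ← zpow_mul, ← zpow_mul, ← zpow_add,
      mul_comm (U.index : ℤ), mul_comm (finrank k V : ℤ), hab, zpow_one]
  have hπU : ∀ u (hu : u ∈ U), π ⟨(u, r u), graph_mem hΔU hr hu⟩ = 1 := by
    intro u hu
    change V' _ ^ a * φ _ ^ b = 1
    rw [hVU u hu, hφU u hu, one_zpow, one_zpow, one_mul]
  let f : π.ker →* Γ := fst.comp π.ker.subtype
  have hf : Function.Bijective f := by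
    constructor
    · intro p q hpq
      have h0 : (p : H).1.1 = (q : H).1.1 := hpq
      obtain ⟨c, hc⟩ := hdiff (p : H).1.1 (p : H).1.2 (q : H).1.2 (p : H).2 (by
        rw [h0]
        exact (q : H).2)
      have h1 : (p : H) = i c * (q : H) := by
        apply Subtype.ext
        change (p : H).1 = (1 * (q : H).1.1, sc c * (q : H).1.2)
        rw [one_mul, ← h0, ← hc]
      have h2 : π (p : H) = 1 := p.2
      have h3 : π (q : H) = 1 := q.2
      rw [h1, map_mul, hπi, h3, mul_one] at h2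
      apply Subtype.ext
      rw [h1, h2]
      apply Subtype.ext
      change (1 * (q : H).1.1, sc 1 * (q : H).1.2) = (q : H).1
      rw [map_one, one_mul, one_mul]
    · intro g
      obtain ⟨p, hp⟩ := hfst g
      refine ⟨⟨i (π p)⁻¹ * p, ?_⟩, ?_⟩
      · rw [MonoidHom.mem_ker, map_mul, hπi, inv_mul_cancel]
      · change 1 * fst p = g
        rw [one_mul, hp]
  let e := MulEquiv.ofBijective f hf
  let R : Γ →* (V →ₗ[k] V)ˣ :=
    ((MonoidHom.snd Γ _).comp (H.subtype.comp π.ker.subtype)).comp e.symm.toMonoidHom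
  refine ⟨R, fun u hu => ?_⟩
  have h1 : e.symm u = ⟨⟨(u, r u), graph_mem hΔU hr hu⟩, hπU u hu⟩ := by
    rw [MulEquiv.symm_apply_eq]
    rfl
  change ((e.symm u : π.ker) : H).1.2 = r u
  rw [h1]

end Pool.Agent.Q227.KM
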