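import Pool.Agent.Q227.CD.Orb

/-!
# Rigidity of eigenvalues over fields with few roots of unity
-/

set_option autoImplicit false
set_option linter.unusedSectionVars false

namespace Pool.Agent.Q227.KM

open Polynomial Module

variable {k : Type} [Field k]

/-- roots of unity of prime order dividing `m` have large degree -/
def LargeRoots (k : Type) [Field k] (m n : ℕ) : Prop :=
  ∀ p : ℕ, p.Prime → p ∣ m → ∀ ζ : AlgebraicClosure k, IsPrimitiveRoot ζ p →
    n < (minpoly k ζ).natDegree

theorem no_root {m n : ℕ} (h : LargeRoots k m n) (E : IntermediateField k (AlgebraicClosure k))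
    [FiniteDimensional k E] (hE : finrank k E ≤ n) {z : AlgebraicClosure k} (hz : z ∈ E)
    (hm : 0 < m) (hzm : z ^ m = 1) : z = 1 := by
  by_contra hne
  have h0 : orderOf z ∣ m := orderOf_dvd_of_pow_eq_one hzm
  have h1 : orderOf z ≠ 1 := fun h => hne (orderOf_eq_one_iff.1 h)
  have h2 : 0 < orderOf z := Nat.pos_of_dvd_of_pos h0 hm
  obtain ⟨p, hp, hpd⟩ := Nat.exists_prime_and_dvd h1
  have h3 : IsPrimitiveRoot (z ^ (orderOf z / p)) p :=
    (IsPrimitiveRoot.orderOf z).pow h2 (Nat.div_mul_cancel hpd).symm
  have h4 := h p hp (hpd.trans h0) _ h3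
  have h5 : z ^ (orderOf z / p) ∈ E := pow_mem hz _
  have h6 : (minpoly k (z ^ (orderOf z / p))).natDegree ≤ finrank k E := by
    have h7 := minpoly.natDegree_le (A := k) (⟨_, h5⟩ : E)
    have h8 : minpoly k (⟨_, h5⟩ : E) = minpoly k (z ^ (orderOf z / p)) :=
      IntermediateField.minpoly_eq (⟨_, h5⟩ : E)
    rwa [h8] at h7
  omega

theorem finrank_root {P : k[X]} (hP : P ≠ 0) {x : AlgebraicClosure k}
    (hx : x ∈ P.aroots (AlgebraicClosure k)) :
    finrank k (IntermediateField.adjoin k {x}) ≤ P.natDegree := by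
  have hint : IsIntegral k x := Algebra.IsIntegral.isIntegral x
  rw [IntermediateField.adjoin.finrank hint]
  apply natDegree_le_of_dvd _ hP
  apply minpoly.dvd
  exact (mem_aroots.1 hx).2

theorem card_aroots' (P : k[X]) : Multiset.card (P.aroots (AlgebraicClosure k)) = P.natDegree := by
  rw [aroots_def, ← natDegree_map (algebraMap k (AlgebraicClosure k))]
  exact (IsAlgClosed.splits _).natDegree_eq_card_roots.symm

theorem eq_of_aroots {P Q : k[X]} (hP : P.Monic) (hQ : Q.Monic)
    (h : P.aroots (AlgebraicClosure k) = Q.aroots (AlgebraicClosure k)) : P = Q := by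
  apply map_injective (algebraMap k (AlgebraicClosure k)) (algebraMap k _).injective
  have h1 := (IsAlgClosed.splits (P.map (algebraMap k (AlgebraicClosure k)))).eq_prod_roots_of_monic
    (hP.map _)
  have h2 := (IsAlgClosed.splits (Q.map (algebraMap k (AlgebraicClosure k)))).eq_prod_roots_of_monic
    (hQ.map _)
  rw [aroots_def, aroots_def] at h
  rw [h1, h2, h]

/-- rigidity for prime powers of the roots -/
theorem rigid_prime [CharZero k] {p n : ℕ} (hp : p.Prime) (h : LargeRoots k p n) {P Q : k[X]}
    (hP : P.Monic) (hQ : Q.Monic) (hPn : P.natDegree = n) (hQn : Q.natDegree = n)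
    (hpow : ((P.aroots (AlgebraicClosure k)).map fun x => x ^ p) =
      (Q.aroots (AlgebraicClosure k)).map fun x => x ^ p) : P = Q := by
  classical
  have hm : 0 < p := hp.pos
  apply eq_of_aroots hP hQ
  by_contra hne
  set s := P.aroots (AlgebraicClosure k) with hs
  set t := Q.aroots (AlgebraicClosure k) with ht
  have hcard : Multiset.card s = Multiset.card t := by
    rw [hs, ht, card_aroots', card_aroots', hPn, hQn]
  obtain ⟨x, hx⟩ : ∃ x, Multiset.count x t < Multiset.count x s := by
    by_contra hall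
    push Not at hall
    exact hne (Multiset.eq_of_le_of_card_le (Multiset.le_iff_count.2 hall) hcard.ge)
  have h1 : Multiset.card (s.filter fun y => x ^ p = y ^ p) =
      Multiset.card (t.filter fun y => x ^ p = y ^ p) := by
    have h2 := congrArg (Multiset.count (x ^ p)) hpow
    rw [Multiset.count_map, Multiset.count_map] at h2
    exact h2
  obtain ⟨y, hy⟩ : ∃ y, Multiset.count y (s.filter fun y => x ^ p = y ^ p) <
      Multiset.count y (t.filter fun y => x ^ p = y ^ p) := by
    by_contra hall
    push Not at hall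
    have h2 := Multiset.eq_of_le_of_card_le (Multiset.le_iff_count.2 hall) h1.le
    have h3 := congrArg (Multiset.count x) h2
    rw [Multiset.count_filter_of_pos (p := fun y => x ^ p = y ^ p) rfl,
      Multiset.count_filter_of_pos (p := fun y => x ^ p = y ^ p) rfl] at h3
    omega
  have hyt : y ∈ t.filter fun y => x ^ p = y ^ p :=
    Multiset.count_pos.1 (lt_of_le_of_lt (Nat.zero_le _) hy)
  obtain ⟨hyt1, hxy⟩ := Multiset.mem_filter.1 hyt
  have hne' : y ≠ x := by
    rintro rfl
    rw [Multiset.count_filter_of_pos (p := fun z => y ^ p = z ^ p) rfl,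
      Multiset.count_filter_of_pos (p := fun z => y ^ p = z ^ p) rfl] at hy
    omega
  have hxs : x ∈ s := Multiset.count_pos.1 (lt_of_le_of_lt (Nat.zero_le _) hx)
  have hx0 : x ≠ 0 := by
    rintro rfl
    rw [zero_pow hm.ne'] at hxy
    exact hne' (pow_eq_zero_iff hm.ne' |>.1 hxy.symm)
  -- the prime is large
  have hnp : n < p := by
    haveI : NeZero ((p : ℕ) : AlgebraicClosure k) := ⟨by exact_mod_cast hp.ne_zero⟩
    haveI : NeZero p := ⟨hp.ne_zero⟩
    obtain ⟨ζ, hζ⟩ := HasEnoughRootsOfUnity.exists_primitiveRoot (AlgebraicClosure k) p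
    refine lt_of_lt_of_le (h p hp dvd_rfl ζ hζ) ?_
    have h2 : (X ^ p - 1 : k[X]).natDegree = p := natDegree_X_pow_sub_C (r := (1 : k))
    rw [← h2]
    refine natDegree_le_of_dvd (minpoly.dvd _ _ ?_) ?_
    · rw [map_sub, map_pow, aeval_X, map_one, hζ.pow_eq_one, sub_self]
    · intro h0
      rw [h0, natDegree_zero] at h2
      exact hp.ne_zero h2.symm
  -- the field generated by the power
  let E := IntermediateField.adjoin k {x ^ p}
  have hcE : x ^ p ∈ E := IntermediateField.mem_adjoin_simple_self k (x ^ p)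
  obtain ⟨b, hb⟩ : ∃ b : E, b ^ p = ⟨x ^ p, hcE⟩ := by
    by_contra hall
    push Not at hall
    have hirr := X_pow_sub_C_irreducible_of_prime hp hall
    have h2 : minpoly E x = X ^ p - C (⟨x ^ p, hcE⟩ : E) := by
      refine (minpoly.eq_of_irreducible_of_monic hirr ?_ (monic_X_pow_sub_C _ hp.ne_zero)).symm
      rw [map_sub, map_pow, aeval_X, aeval_C]
      exact sub_self _
    have h3 : (minpoly E x).natDegree ≤ n := by
      have h4 : minpoly E x ∣ (minpoly k x).map (algebraMap k E) :=
        minpoly.dvd_map_of_isScalarTower k E x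
      have hint : IsIntegral k x := Algebra.IsIntegral.isIntegral x
      refine (natDegree_le_of_dvd h4 ((minpoly.monic hint).map _).ne_zero).trans ?_
      rw [natDegree_map, ← IntermediateField.adjoin.finrank hint, ← hPn]
      exact finrank_root hP.ne_zero hxs
    rw [h2, natDegree_X_pow_sub_C] at h3
    omega
  have hb' : (b : AlgebraicClosure k) ^ p = x ^ p := congrArg Subtype.val hb
  have hb0 : (b : AlgebraicClosure k) ≠ 0 := by
    intro h0
    rw [h0, zero_pow hm.ne'] at hb'
    exact pow_ne_zero _ hx0 hb'.symm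
  -- one of the quotients is not `1`
  have key : ∀ (A : k[X]) (z : AlgebraicClosure k), A.Monic → A.natDegree = n →
      z ∈ A.aroots (AlgebraicClosure k) → x ^ p = z ^ p → z = b := by
    intro A z hA hAn hz hxz
    let E1 := IntermediateField.adjoin k {z}
    haveI : FiniteDimensional k E1 :=
      IntermediateField.adjoin.finiteDimensional (Algebra.IsIntegral.isIntegral z)
    have hzE : z ∈ E1 := IntermediateField.mem_adjoin_simple_self k z
    have hle : E ≤ E1 := by
      rw [IntermediateField.adjoin_simple_le_iff, hxz]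
      exact pow_mem hzE p
    have h9 := no_root h E1 (by
      rw [← hAn]
      exact finrank_root hA.ne_zero hz) (div_mem hzE (hle b.2)) hm (by
      rw [div_pow, hb', ← hxz, div_self (pow_ne_zero _ hx0)])
    exact (div_eq_one_iff_eq hb0).1 h9
  exact hne' ((key Q y hQ hQn hyt1 hxy).trans (key P x hP hPn hxs rfl).symm)

/-- the eigenvalues of a power -/
theorem aroots_pow {n : ℕ} (T : (Fin n → k) →ₗ[k] (Fin n → k)) (m : ℕ) :
    (T ^ m).charpoly.aroots (AlgebraicClosure k) =
      (T.charpoly.aroots (AlgebraicClosure k)).map fun x => x ^ m := by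
  have h1 : ∀ S : (Fin n → k) →ₗ[k] (Fin n → k), S.charpoly.aroots (AlgebraicClosure k) =
      (Matrix.toLin' ((LinearMap.toMatrix' S).map
        (algebraMap k (AlgebraicClosure k)))).charpoly.roots := by
    intro S
    rw [Matrix.charpoly_toLin', aroots_def, Matrix.charpoly_map]
    rw [show S.charpoly = (LinearMap.toMatrix' S).charpoly from
      (LinearMap.charpoly_toMatrix S (Pi.basisFun k (Fin n))).symm]
  rw [h1, h1, ← Pool.Agent.Q227.CD.roots_pow]
  congr 2
  rw [show LinearMap.toMatrix' (T ^ m) = LinearMap.toMatrix' T ^ m from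
    map_pow LinearMap.toMatrixAlgEquiv' T m]
  have h2 : (LinearMap.toMatrix' T ^ m).map (algebraMap k (AlgebraicClosure k)) =
      ((LinearMap.toMatrix' T).map (algebraMap k (AlgebraicClosure k))) ^ m :=
    map_pow (algebraMap k (AlgebraicClosure k)).mapMatrix (LinearMap.toMatrix' T) m
  rw [h2]
  exact map_pow Matrix.toLinAlgEquiv' _ m

/-- each monic polynomial is a characteristic polynomial -/
theorem exists_end {n : ℕ} {P : k[X]} (hP : P.Monic) (hn : P.natDegree = n) :
    ∃ T : (Fin n → k) →ₗ[k] (Fin n → k), T.charpoly = P := by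
  have h0 : P ≠ 0 := hP.ne_zero
  let pb := AdjoinRoot.powerBasis h0
  have hdim : pb.dim = n := by
    rw [AdjoinRoot.powerBasis_dim, hn]
  subst hdim
  refine ⟨Matrix.toLin' (Algebra.leftMulMatrix pb.basis pb.gen), ?_⟩
  rw [Matrix.charpoly_toLin', charpoly_leftMulMatrix, AdjoinRoot.powerBasis_gen,
    AdjoinRoot.minpoly_root h0, hP.leadingCoeff, inv_one, C_1, mul_one]

theorem rigid_end [CharZero k] {n : ℕ} (m : ℕ) : 0 < m → LargeRoots k m n →
    ∀ T T' : (Fin n → k) →ₗ[k] (Fin n → k),
    ((T.charpoly.aroots (AlgebraicClosure k)).map fun x => x ^ m) =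
      ((T'.charpoly.aroots (AlgebraicClosure k)).map fun x => x ^ m) → T.charpoly = T'.charpoly := by
  have hmon : ∀ T : (Fin n → k) →ₗ[k] (Fin n → k), T.charpoly.Monic := fun T =>
    LinearMap.charpoly_monic T
  have hdeg : ∀ T : (Fin n → k) →ₗ[k] (Fin n → k), T.charpoly.natDegree = n := fun T => by
    rw [LinearMap.charpoly_natDegree, finrank_fin_fun]
  induction m using Nat.recOnMul with
  | zero => exact fun h => absurd h (lt_irrefl 0)
  | one =>
    intro _ _ T T' h
    apply eq_of_aroots (hmon T) (hmon T')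
    simpa using h
  | prime p hp =>
    intro _ hroot T T' h
    exact rigid_prime hp hroot (hmon T) (hmon T') (hdeg T) (hdeg T') h
  | mul a b iha ihb =>
    intro hm hroot T T' h
    have ha : 0 < a := Nat.pos_of_ne_zero fun h0 => by
      rw [h0, zero_mul] at hm
      exact lt_irrefl 0 hm
    have hb : 0 < b := Nat.pos_of_ne_zero fun h0 => by
      rw [h0, mul_zero] at hm
      exact lt_irrefl 0 hm
    have h1 : (T ^ a).charpoly = (T' ^ a).charpoly := by
      refine ihb hb (fun p hp hpd => hroot p hp (hpd.trans (Dvd.intro_left a rfl))) _ _ ?_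
      rw [aroots_pow, aroots_pow, Multiset.map_map, Multiset.map_map]
      simp only [Function.comp_def, ← pow_mul]
      exact h
    refine iha ha (fun p hp hpd => hroot p hp (hpd.trans (Dvd.intro b rfl))) _ _ ?_
    rw [← aroots_pow, ← aroots_pow, h1]

/-- **rigidity**: the powers of the roots determine the polynomial -/
theorem rigid [CharZero k] {m n : ℕ} (h : LargeRoots k m n) (hm : 0 < m) {P Q : k[X]} (hP : P.Monic)
    (hQ : Q.Monic) (hPn : P.natDegree = n) (hQn : Q.natDegree = n)
    (hpow : ((P.aroots (AlgebraicClosure k)).map fun x => x ^ m) =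
      (Q.aroots (AlgebraicClosure k)).map fun x => x ^ m) : P = Q := by
  obtain ⟨T, rfl⟩ := exists_end hP hPn
  obtain ⟨T', rfl⟩ := exists_end hQ hQn
  exact rigid_end m hm h T T' hpow

/-- roots of unity in the base field -/
theorem unit_one {m n : ℕ} (h : LargeRoots k m n) (hm : 0 < m) (hn : 0 < n) (z : kˣ)
    (hz : z ^ m = 1) : z = 1 := by
  have h1 : algebraMap k (AlgebraicClosure k) (z : k) = 1 := by
    refine no_root h (⊥ : IntermediateField k (AlgebraicClosure k)) ?_
      (IntermediateField.algebraMap_mem _ _) hm ?_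
    · rw [IntermediateField.finrank_bot]
      exact Nat.one_le_iff_ne_zero.2 hn.ne'
    · rw [← map_pow, ← Units.val_pow_eq_pow_val, hz, Units.val_one, map_one]
  apply Units.ext
  apply (algebraMap k (AlgebraicClosure k)).injective
  rw [h1, Units.val_one, map_one]

/-- an endomorphism of order dividing `m` is trivial -/
theorem end_one [CharZero k] {m n : ℕ} (h : LargeRoots k m n) (hm : 0 < m) (hn : 0 < n)
    (T : (Fin n → k) →ₗ[k] (Fin n → k)) (hT : T ^ m = 1) : T = 1 := by
  haveI : Nonempty (Fin n) := ⟨⟨0, hn⟩⟩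
  -- the characteristic polynomial
  have h1 : T.charpoly = (1 : (Fin n → k) →ₗ[k] (Fin n → k)).charpoly := by
    refine rigid h hm (LinearMap.charpoly_monic _) (LinearMap.charpoly_monic _)
      (by rw [LinearMap.charpoly_natDegree, finrank_fin_fun])
      (by rw [LinearMap.charpoly_natDegree, finrank_fin_fun]) ?_
    rw [← aroots_pow, ← aroots_pow, hT, one_pow]
  have h2 : (T - 1) ^ n = 0 := by
    have h3 := LinearMap.aeval_self_charpoly T
    have h4 : (1 : (Fin n → k) →ₗ[k] (Fin n → k)).charpoly = (X - 1) ^ n := by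
      have h5 : (1 : (Fin n → k) →ₗ[k] (Fin n → k)).charpoly =
          (1 : Matrix (Fin n) (Fin n) k).charpoly := by
        rw [← LinearMap.charpoly_toMatrix (1 : (Fin n → k) →ₗ[k] (Fin n → k))
          (Pi.basisFun k (Fin n))]
        congr 1
        exact LinearMap.toMatrix_id _
      rw [h5, Matrix.charpoly_one, Fintype.card_fin]
    rw [h1, h4, map_pow, map_sub, aeval_X, map_one] at h3
    exact h3
  have h3 : IsNilpotent (T - 1) := ⟨n, h2⟩
  have h4 : Module.End.IsSemisimple (T - 1) := by
    have h5 : Module.End.IsSemisimple T := by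
      apply Module.End.isSemisimple_of_squarefree_aeval_eq_zero (p := X ^ m - 1)
      · apply Separable.squarefree
        have h6 : ((m : ℕ) : k) ≠ 0 := by exact_mod_cast hm.ne'
        exact separable_X_pow_sub_C 1 h6 one_ne_zero |> fun h => by simpa using h
      · rw [map_sub, map_pow, aeval_X, map_one, hT, sub_self]
    have h6 := Module.End.IsSemisimple.sub_of_commute (Commute.one_right T) h5 Module.End.isSemisimple_id
    exact h6
  exact sub_eq_zero.1 (Module.End.eq_zero_of_isNilpotent_isSemisimple h3 h4)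

end Pool.Agent.Q227.KM
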