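import Pool.Agent.Q227.KM.A
import Pool.Agent.Q227.KM.B
import Pool.Agent.Q227.CD.NT4

/-!
# Representations attached over one extension of degree prime to the dimension
-/

set_option autoImplicit false
set_option linter.unusedSectionVars false

namespace Pool.Agent.Q227.KM

open Representation Module Polynomial Pool.Agent.Q15.GR Pool.Agent.Q227.CD
open NumberField IsDedekindDomain Pool.Agent.W401.Cheb

section general

variable {k : Type} [Field k]

theorem semi_surj {G H : Type} [Group G] [Group H] {V : Type} [AddCommGroup V] [Module k V]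
    (ρ : Representation k G V) (φ : H →* G) (hφ : Function.Surjective φ)
    (h : ρ.IsSemisimpleRepresentation) :
    IsSemisimpleRepresentation (ρ.comp φ : Representation k H V) := by
  refine ⟨fun S => ?_⟩
  let S' : Subrepresentation ρ :=
    { toSubmodule := S.toSubmodule
      apply_mem_toSubmodule := fun g v hv => by
        obtain ⟨h, rfl⟩ := hφ g
        exact S.apply_mem_toSubmodule h hv }
  obtain ⟨T', hT'⟩ := h.exists_isCompl S'
  let T : Subrepresentation (ρ.comp φ : Representation k H V) :=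
    { toSubmodule := T'.toSubmodule
      apply_mem_toSubmodule := fun g v hv => T'.apply_mem_toSubmodule (φ g) hv }
  refine ⟨T, ?_, ?_⟩
  · have h1 : S' ⊓ T' = ⊥ := disjoint_iff.1 hT'.disjoint
    rw [disjoint_iff]
    apply Subrepresentation.toSubmodule_injective
    have h2 : S'.toSubmodule ⊓ T'.toSubmodule = ⊥ := congrArg Subrepresentation.toSubmodule h1
    exact h2
  · have h1 : S' ⊔ T' = ⊤ := codisjoint_iff.1 hT'.codisjoint
    rw [codisjoint_iff]
    apply Subrepresentation.toSubmodule_injective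
    have h2 : S'.toSubmodule ⊔ T'.toSubmodule = ⊤ := congrArg Subrepresentation.toSubmodule h1
    exact h2

theorem trace_of_charpoly {n : ℕ} {T T' : (Fin n → k) →ₗ[k] (Fin n → k)}
    (h : T.charpoly = T'.charpoly) :
    LinearMap.trace k (Fin n → k) T = LinearMap.trace k (Fin n → k) T' := by
  rcases Nat.eq_zero_or_pos n with rfl | hn
  · rw [Subsingleton.elim T T']
  · haveI : Nonempty (Fin n) := ⟨⟨0, hn⟩⟩
    have h1 : ∀ S : (Fin n → k) →ₗ[k] (Fin n → k), LinearMap.trace k (Fin n → k) S =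
        - S.charpoly.coeff (Fintype.card (Fin n) - 1) := by
      intro S
      rw [LinearMap.trace_eq_matrix_trace k (Pi.basisFun k (Fin n)),
        Matrix.trace_eq_neg_charpoly_coeff, LinearMap.charpoly_toMatrix]
    rw [h1, h1, h]

theorem det_of_charpoly {n : ℕ} (T : (Fin n → k) →ₗ[k] (Fin n → k)) :
    LinearMap.det T = (-1) ^ n * T.charpoly.coeff 0 := by
  rw [LinearMap.det_eq_sign_charpoly_coeff, finrank_fin_fun]

end general

section top

variable {Γ : Type} [Group Γ] [TopologicalSpace Γ] {k : Type} [Field k]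
  [TopologicalSpace k] [IsTopologicalRing k] {n : ℕ}

theorem det_cont {ρ : Representation k Γ (Fin n → k)} (h : Cts ρ) :
    Continuous fun g => LinearMap.det (ρ g) := by
  have h1 : (fun g => LinearMap.det (ρ g)) =
      fun g => (Matrix.of fun i j => ρ g (Pi.single j 1) i).det := by
    funext g
    rw [← LinearMap.det_toMatrix' (ρ g)]
    congr 1
  rw [h1]
  refine Continuous.matrix_det ?_
  refine continuous_matrix fun i j => ?_
  exact (continuous_apply i).comp (h _)

theorem cts_of_open_g [IsTopologicalGroup Γ] (ρ : Representation k Γ (Fin n → k)) (H : Subgroup Γ)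
    (hH : IsOpen (H : Set Γ)) (h : ∀ v, Continuous fun g : H => ρ (g : Γ) v) : Cts ρ := by
  intro v
  rw [continuous_iff_continuousAt]
  intro g₀
  have h1 : ContinuousAt (fun g : Γ => ρ g v) 1 := by
    have h2 : Continuous ((H : Set Γ).restrict (fun g : Γ => ρ g v)) := h v
    have h3 := (continuousOn_iff_continuous_restrict.2 h2)
    exact h3.continuousAt (hH.mem_nhds H.one_mem)
  have h2 : (fun g : Γ => ρ g v) = fun g => ρ g₀ (ρ (g₀⁻¹ * g) v) := by
    funext g
    rw [← Module.End.mul_apply, ← map_mul, mul_inv_cancel_left]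
  rw [h2]
  refine (lin_cont (ρ g₀)).continuousAt.comp ?_
  have h3 : ContinuousAt (fun g : Γ => g₀⁻¹ * g) g₀ := (continuous_const_mul g₀⁻¹).continuousAt
  have h4 : ContinuousAt (fun g : Γ => ρ g v) (g₀⁻¹ * g₀) := by
    rw [inv_mul_cancel]
    exact h1
  exact ContinuousAt.comp (f := fun g : Γ => g₀⁻¹ * g) (g := fun g : Γ => ρ g v) h4 h3

end top

section nt

variable {K : Type} [Field K] [NumberField K] {k : Type} [Field k] [CharZero k]
  [TopologicalSpace k] [IsTopologicalRing k] [T2Space k] {n : ℕ}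

/-- restriction from `U` to `N` -/
noncomputable def resN {Γ : Type} [Group Γ] {N U : Subgroup Γ} (hNU : N ≤ U)
    (ρ : Representation k U (Fin n → k)) : Representation k N (Fin n → k) :=
  MonoidHom.comp ρ (Subgroup.inclusion hNU)

/-- **descent along one extension of degree prime to the dimension** -/
theorem one_ext (N U : Subgroup (GK K)) [hNn : N.Normal] (hNo : IsOpen (N : Set (GK K)))
    (hNU : N ≤ U) (hn : 0 < n) (hcop : Nat.Coprime U.index n) (hroot : LargeRoots k N.index n)
    {S : Set (HeightOneSpectrum (𝓞 K))} (hS : S.Finite) (P : HeightOneSpectrum (𝓞 K) → k[X])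
    (hP : ∀ v ∉ S, (P v).Monic ∧ (P v).natDegree = n) (δ : GK K →* kˣ)
    (hδc : Continuous fun g => (δ g : k))
    (hδ : ∀ v ∉ S, ∀ σ, IsFrob v σ → ((δ σ⁻¹ : kˣ) : k) = (-1) ^ n * (P v).coeff 0)
    (ρ : Representation k U (Fin n → k)) (hc : Cts ρ) (hirr : (resN hNU ρ).IsIrreducible)
    (hcomm : ∀ T : (Fin n → k) →ₗ[k] (Fin n → k), (∀ x : N, T ∘ₗ resN hNU ρ x =
      resN hNU ρ x ∘ₗ T) → ∃ c : k, T = c • LinearMap.id)
    (hatt : ∀ v ∉ S, (∀ σ : U, IsInert v (σ : GK K) → ρ σ = 1) ∧ ∀ (f : ℕ) (σ : U), 0 < f →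
      IsFrobPow v f (σ : GK K) → (ρ σ⁻¹).charpoly.aroots (AlgebraicClosure k) =
        ((P v).aroots (AlgebraicClosure k)).map fun x => x ^ f) :
    ∃ R : Representation k (GK K) (Fin n → k), (∀ u : U, R u = ρ u) ∧ Cts R ∧
      (∀ v ∉ S, (∀ σ, IsInert v σ → R σ = 1) ∧ ∀ σ, IsFrob v σ → (R σ⁻¹).charpoly = P v) ∧
      ∀ R' : Representation k (GK K) (Fin n → k),
        Nonempty (Representation.Equiv (MonoidHom.comp R' U.subtype : Representation k U (Fin n → k)) ρ) → Nonempty (Representation.Equiv R' R) := by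
  classical
  haveI : Finite (GK K ⧸ N) := Subgroup.quotient_finite_of_isOpen _ hNo
  haveI hNf : N.FiniteIndex := Subgroup.finiteIndex_of_finite_quotient
  haveI hUf : U.FiniteIndex := Subgroup.finiteIndex_of_le hNU
  haveI : Nonempty (Fin n) := ⟨⟨0, hn⟩⟩
  haveI : Nontrivial (Fin n → k) := inferInstance
  have hUo : IsOpen (U : Set (GK K)) := Subgroup.isOpen_mono hNU hNo
  have hM : 0 < N.index := Nat.pos_of_ne_zero hNf.index_ne_zero
  have hcharpoly : ∀ v ∉ S, ∀ σ : U, IsFrob v (σ : GK K) → (ρ σ⁻¹).charpoly = P v := by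
    intro v hv σ hσ
    apply eq_of_aroots (LinearMap.charpoly_monic _) (hP v hv).1
    rw [(hatt v hv).2 1 σ one_pos (isFrobPow_one.2 hσ)]
    simp
  -- the determinant
  have hdet : ∀ u : U, LinearMap.det (ρ u) = ((δ (u : GK K) : kˣ) : k) := by
    have hdense : Dense ((Subtype.val : U → GK K) ⁻¹'
        {x : GK K | ∃ v ∉ S, IsFrob v x⁻¹}) :=
      Dense.preimage (frob_dense_inv hS) hUo.isOpenMap_subtype_val
    have h1 := Continuous.ext_on hdense (det_cont hc)
      (hδc.comp continuous_subtype_val) (by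
        rintro ⟨x, hx⟩ ⟨v, hv, hxv⟩
        change LinearMap.det (ρ ⟨x, hx⟩) = ((δ x : kˣ) : k)
        have h2 := hδ v hv _ hxv
        rw [inv_inv] at h2
        have h3 := hcharpoly v hv ⟨x⁻¹, U.inv_mem hx⟩ hxv
        have h4 : (⟨x⁻¹, U.inv_mem hx⟩ : U)⁻¹ = ⟨x, hx⟩ := Subtype.ext (inv_inv x)
        rw [h4] at h3
        rw [h2, det_of_charpoly, h3])
    exact fun u => congrFun h1 u
  -- the units
  let ρu : U →* ((Fin n → k) →ₗ[k] (Fin n → k))ˣ := MonoidHom.toHomUnits ρ
  have hρu : ∀ u, ((ρu u : ((Fin n → k) →ₗ[k] (Fin n → k))ˣ) : (Fin n → k) →ₗ[k] (Fin n → k)) =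
      ρ u := fun u => rfl
  let r : GK K → ((Fin n → k) →ₗ[k] (Fin n → k))ˣ := fun x => if h : x ∈ U then ρu ⟨x, h⟩ else 1
  have hr : ∀ (x : GK K) (hx : x ∈ U), r x = ρu ⟨x, hx⟩ := fun x hx => dif_pos hx
  have hrm : IsMulOn U r := by
    intro x hx y hy
    rw [hr x hx, hr y hy, hr _ (U.mul_mem hx hy), ← map_mul]
    rfl
  have hschur : ∀ A : ((Fin n → k) →ₗ[k] (Fin n → k))ˣ, (∀ x ∈ N, A * r x = r x * A) →
      ∃ c : kˣ, A = sc c := by
    intro A hA
    obtain ⟨c, hc'⟩ := hcomm (A : (Fin n → k) →ₗ[k] (Fin n → k)) (fun x => by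
      have h1 := congrArg Units.val (hA x x.2)
      rw [hr _ (hNU x.2)] at h1
      exact h1)
    have hc0 : c ≠ 0 := by
      rintro rfl
      rw [zero_smul] at hc'
      exact A.ne_zero hc'
    refine ⟨Units.mk0 c hc0, Units.ext ?_⟩
    rw [hc', sc_val]
    rfl
  -- conjugation invariance
  have hinv : ∀ g : GK K, ∃ A : ((Fin n → k) →ₗ[k] (Fin n → k))ˣ, (g, A) ∈ conjGroup N r := by
    intro g
    let cg : N →* N := (MulAut.conjNormal g).toMonoidHom
    have hcg : ∀ x : N, ((cg x : N) : GK K) = g * x * g⁻¹ := fun x => MulAut.conjNormal_apply g x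
    have hcgs : Function.Surjective cg := (MulAut.conjNormal g).surjective
    have hss : (resN hNU ρ).IsSemisimpleRepresentation := by
      rw [isSemisimpleRepresentation_iff_isSemisimpleModule_asModule]
      have h1 := (irreducible_iff_isSimpleModule_asModule _).1 hirr
      infer_instance
    have hss' := semi_surj (resN hNU ρ) cg hcgs hss
    have hctsN : Cts (resN hNU ρ) := fun v => (hc v).comp
      (continuous_subtype_val.subtype_mk _)
    have hctsN' : Cts ((resN hNU ρ).comp cg : Representation k N (Fin n → k)) := by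
      intro v
      refine (hctsN v).comp ?_
      refine Continuous.subtype_mk ?_ _
      change Continuous fun x : N => g * (x : GK K) * g⁻¹
      exact (continuous_const.mul continuous_subtype_val).mul continuous_const
    have hchar : (resN hNU ρ).character =
        Representation.character ((resN hNU ρ).comp cg : Representation k N (Fin n → k)) := by
      have hdense : Dense ((Subtype.val : N → GK K) ⁻¹'
          {x : GK K | ∃ v ∉ S, IsFrob v x⁻¹}) :=
        Dense.preimage (frob_dense_inv hS) hNo.isOpenMap_subtype_val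
      refine Continuous.ext_on hdense (char_cont hctsN) (char_cont hctsN') ?_
      rintro ⟨x, hx⟩ ⟨v, hv, hxv⟩
      apply trace_of_charpoly
      have hxU : x ∈ U := hNU hx
      have h3 := hcharpoly v hv ⟨x⁻¹, U.inv_mem hxU⟩ hxv
      have h4 : (⟨x⁻¹, U.inv_mem hxU⟩ : U)⁻¹ = ⟨x, hxU⟩ := Subtype.ext (inv_inv x)
      rw [h4] at h3
      have hy : g * x * g⁻¹ ∈ U := hNU (hNn.conj_mem x hx g)
      have h5 := hcharpoly v hv ⟨g * x⁻¹ * g⁻¹, by
        have := U.inv_mem hy
        have h6 : (g * x * g⁻¹)⁻¹ = g * x⁻¹ * g⁻¹ := by group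
        rwa [h6] at this⟩ (by
        have h7 := isFrobPow_conj (isFrobPow_one.2 hxv) g
        exact isFrobPow_one.1 h7)
      have h6 : (⟨g * x⁻¹ * g⁻¹, by
        have := U.inv_mem hy
        have h6 : (g * x * g⁻¹)⁻¹ = g * x⁻¹ * g⁻¹ := by group
        rwa [h6] at this⟩ : U)⁻¹ = ⟨g * x * g⁻¹, hy⟩ := by
        apply Subtype.ext
        change (g * x⁻¹ * g⁻¹)⁻¹ = g * x * g⁻¹
        group
      rw [h6] at h5
      exact h3.trans h5.symm
    obtain ⟨e⟩ := equiv_of_char _ _ hss hss' hchar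
    let A : ((Fin n → k) →ₗ[k] (Fin n → k))ˣ :=
      { val := e.toLinearEquiv.toLinearMap
        inv := e.toLinearEquiv.symm.toLinearMap
        val_inv := by
          refine LinearMap.ext fun v => ?_
          exact e.toLinearEquiv.apply_symm_apply v
        inv_val := by
          refine LinearMap.ext fun v => ?_
          exact e.toLinearEquiv.symm_apply_apply v }
    refine ⟨A, fun x hx => ?_⟩
    change A * r x * A⁻¹ = r (g * x * g⁻¹)
    rw [mul_inv_eq_iff_eq_mul, hr x (hNU hx), hr _ (hNU (hNn.conj_mem x hx g))]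
    apply Units.ext
    refine LinearMap.ext fun v => ?_
    exact IntertwiningMap.isIntertwining _ _ e.toIntertwiningMap ⟨x, hx⟩ v
  obtain ⟨R₀, hR₀⟩ := ext_group (Δ := N) (U := U) (r := r) hNU hrm hschur hinv δ (fun u hu => by
      rw [hr u hu]
      exact hdet ⟨u, hu⟩) (by
      rw [finrank_fin_fun]
      exact hcop) (fun z hz => unit_one hroot hM hn z hz)
  let R : Representation k (GK K) (Fin n → k) :=
    (Units.coeHom ((Fin n → k) →ₗ[k] (Fin n → k))).comp R₀
  have hRU : ∀ u : U, R u = ρ u := by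
    intro u
    change ((R₀ (u : GK K) : ((Fin n → k) →ₗ[k] (Fin n → k))ˣ) : (Fin n → k) →ₗ[k] (Fin n → k)) = _
    rw [hR₀ u u.2, hr u u.2]
    rfl
  have hcR : Cts R := by
    refine cts_of_open_g R U hUo (fun v => ?_)
    simp_rw [hRU]
    exact hc v
  refine ⟨R, hRU, hcR, fun v hv => ⟨fun τ hτ => ?_, fun σ hσ => ?_⟩, fun R' hR' => ?_⟩
  · -- inertia
    apply end_one hroot hM hn
    rw [← map_pow]
    have h1 : τ ^ N.index ∈ N := Subgroup.pow_index_mem N τ
    obtain ⟨Q, hQ, hτQ⟩ := isInert_iff.1 hτ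
    have h2 : IsInert v (τ ^ N.index) := isInert_iff.2 ⟨Q, hQ, (iner Q).pow_mem hτQ _⟩
    have h3 := hRU ⟨τ ^ N.index, hNU h1⟩
    change R (τ ^ N.index) = _ at h3
    rw [h3]
    exact (hatt v hv).1 ⟨τ ^ N.index, hNU h1⟩ h2
  · -- Frobenius elements
    refine rigid hroot hM (LinearMap.charpoly_monic _) (hP v hv).1
      (by rw [LinearMap.charpoly_natDegree, finrank_fin_fun]) (hP v hv).2 ?_
    rw [← aroots_pow, ← map_pow]
    have h1 : σ ^ N.index ∈ N := Subgroup.pow_index_mem N σ
    obtain ⟨Q, hQ1, hQ2, hσQ⟩ := hσ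
    have h2 : IsFrobPow v N.index (σ ^ N.index) :=
      ⟨Q, hQ1, hQ2, fun x => frob_pow ⟨hQ1, hQ2⟩ hσQ N.index x⟩
    have h3 := (hatt v hv).2 N.index ⟨σ ^ N.index, hNU h1⟩ hM h2
    have h4 := hRU (⟨σ ^ N.index, hNU h1⟩ : U)⁻¹
    have h5 : (((⟨σ ^ N.index, hNU h1⟩ : U)⁻¹ : U) : GK K) = σ⁻¹ ^ N.index := by
      change (σ ^ N.index)⁻¹ = _
      rw [inv_pow]
    rw [h5] at h4
    rw [h4]
    exact h3
  · -- uniqueness
    obtain ⟨e⟩ := hR'
    have hTU : ∀ u : U, tp R' e.toLinearEquiv u = ρ u := by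
      intro u
      refine LinearMap.ext fun v => ?_
      change e.toLinearEquiv (R' u (e.toLinearEquiv.symm v)) = _
      have h1 : e.toLinearEquiv (R' u (e.toLinearEquiv.symm v)) =
          ρ u (e.toLinearEquiv (e.toLinearEquiv.symm v)) :=
        IntertwiningMap.isIntertwining _ _ e.toIntertwiningMap u _
      rw [h1, LinearEquiv.apply_symm_apply]
    let T : GK K →* ((Fin n → k) →ₗ[k] (Fin n → k))ˣ :=
      MonoidHom.toHomUnits (tp R' e.toLinearEquiv)
    have hTr : ∀ x ∈ U, T x = r x := by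
      intro x hx
      rw [hr x hx]
      exact Units.ext (hTU ⟨x, hx⟩)
    have hTR : ∀ g, T g = R₀ g := by
      intro g
      obtain ⟨c, hc'⟩ := hschur ((R₀ g)⁻¹ * T g) (fun x hx => by
        have hx' : g * x * g⁻¹ ∈ U := hNU (hNn.conj_mem x hx g)
        have h1 : T g * r x * (T g)⁻¹ = R₀ g * r x * (R₀ g)⁻¹ := by
          rw [← hTr x (hNU hx), ← map_inv, ← map_mul, ← map_mul, hTr _ hx', hTr x (hNU hx),
            ← hR₀ _ hx', ← hR₀ x (hNU hx), ← map_inv, ← map_mul, ← map_mul]
        have h2 : T g * r x = R₀ g * r x * (R₀ g)⁻¹ * T g := by rw [← h1]; group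
        rw [mul_assoc, h2]
        group)
      have h3 : T g = R₀ g * sc c := by
        rw [← hc']
        group
      have h4 : g ^ N.index ∈ U := hNU (Subgroup.pow_index_mem N g)
      have h5 : T g ^ N.index = R₀ g ^ N.index := by
        rw [← map_pow, ← map_pow, hTr _ h4, hR₀ _ h4]
      have h6 : Commute (R₀ g) (sc c) := (sc_comm c (R₀ g)).symm
      rw [h3, h6.mul_pow] at h5
      have h7 : sc (c ^ N.index) = (1 : ((Fin n → k) →ₗ[k] (Fin n → k))ˣ) := by
        rw [map_pow]
        exact mul_eq_left.1 h5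
      have h8 : c ^ N.index = 1 := sc_inj (k := k) (V := Fin n → k) (by rw [h7, map_one])
      rw [h3, unit_one hroot hM hn c h8, map_one, mul_one]
    have hTR' : tp R' e.toLinearEquiv = R := by
      refine MonoidHom.ext fun g => ?_
      exact congrArg Units.val (hTR g)
    have e' := tpEquiv R' e.toLinearEquiv
    rw [hTR'] at e'
    exact ⟨e'⟩

end nt

end Pool.Agent.Q227.KM
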