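import Pool.Agent.Q227.KM.E

/-!
# Families of representations with given determinant
-/

set_option autoImplicit false
set_option linter.unusedSectionVars false

namespace Pool.Agent.Q227.KM

open Representation Module Polynomial Pool.Agent.Q15.GR

variable {Γ : Type} [Group Γ] [TopologicalSpace Γ] [IsTopologicalGroup Γ] {k : Type} [Field k]
  [CharZero k] [TopologicalSpace k] [IsTopologicalRing k] [T2Space k] {n : ℕ}

theorem semi_of_irr {G : Type} [Group G] {V : Type} [AddCommGroup V] [Module k V]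
    {ρ : Representation k G V} (h : ρ.IsIrreducible) : ρ.IsSemisimpleRepresentation := by
  rw [isSemisimpleRepresentation_iff_isSemisimpleModule_asModule]
  have h1 := (irreducible_iff_isSimpleModule_asModule _).1 h
  infer_instance

/-- the underlying unit of an equivalence intertwines -/
theorem tp_eq {G : Type} [Group G] {ρ σ : Representation k G (Fin n → k)}
    (e : Representation.Equiv ρ σ) (g : G) : tp ρ e.toLinearEquiv g = σ g := by
  refine LinearMap.ext fun v => ?_
  change e.toLinearEquiv (ρ g (e.toLinearEquiv.symm v)) = _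
  have h1 : e.toLinearEquiv (ρ g (e.toLinearEquiv.symm v)) =
      σ g (e.toLinearEquiv (e.toLinearEquiv.symm v)) :=
    IntertwiningMap.isIntertwining _ _ e.toIntertwiningMap g _
  rw [h1, LinearEquiv.apply_symm_apply]

theorem det_tp {G : Type} [Group G] (ρ : Representation k G (Fin n → k))
    (e : (Fin n → k) ≃ₗ[k] (Fin n → k)) (g : G) :
    LinearMap.det (tp ρ e g) = LinearMap.det (ρ g) :=
  LinearMap.det_conj (ρ g) e

/-- **families with given determinant** -/
theorem family (hn : 0 < n) (N : Subgroup Γ) [hNn : N.Normal] [hNf : N.FiniteIndex]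
    (hNo : IsOpen (N : Set Γ)) (hcop : Nat.Coprime N.index n) {ι : Type} [Nonempty ι]
    (U : ι → Subgroup Γ) (hU : ∀ i, N ≤ U i) {Φ : Type} (π : Φ → Γ) (hπ : DenseRange π)
    (P : Φ → k[X]) (hconj : ∀ φ g, ∃ φ', π φ' = g * π φ * g⁻¹ ∧ P φ' = P φ) (δ : Γ →* kˣ)
    (hδc : Continuous fun g => (δ g : k))
    (hδ : ∀ φ, ((δ (π φ) : kˣ) : k) = (-1) ^ n * (P φ).coeff 0)
    (ρ : ∀ i, Representation k (U i) (Fin n → k)) (hc : ∀ i, Cts (ρ i))
    (hirr : ∀ i, (resN (hU i) (ρ i)).IsIrreducible)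
    (hcomm : ∀ (i : ι) (T : (Fin n → k) →ₗ[k] (Fin n → k)), (∀ x : N, T ∘ₗ resN (hU i) (ρ i) x =
      resN (hU i) (ρ i) x ∘ₗ T) → ∃ c : k, T = c • LinearMap.id)
    (hatt : ∀ (i : ι) (φ : Φ) (h : π φ ∈ U i), (ρ i ⟨π φ, h⟩).charpoly = P φ) :
    ∃ R : Representation k Γ (Fin n → k), Cts R ∧ (∀ g, LinearMap.det (R g) = (δ g : k)) ∧
      (∀ i, Nonempty (Representation.Equiv
        (MonoidHom.comp R (U i).subtype : Representation k (U i) (Fin n → k)) (ρ i))) ∧
      ∀ R' : Representation k Γ (Fin n → k), (∀ g, LinearMap.det (R' g) = (δ g : k)) →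
        (∃ i, Nonempty (Representation.Equiv
          (MonoidHom.comp R' (U i).subtype : Representation k (U i) (Fin n → k)) (ρ i))) →
        Nonempty (Representation.Equiv R' R) := by
  classical
  haveI : Nonempty (Fin n) := ⟨⟨0, hn⟩⟩
  haveI : Nontrivial (Fin n → k) := inferInstance
  have hUo : ∀ i, IsOpen (U i : Set Γ) := fun i => Subgroup.isOpen_mono (hU i) hNo
  -- the determinants
  have hdet : ∀ (i : ι) (u : U i), LinearMap.det (ρ i u) = ((δ (u : Γ) : kˣ) : k) := by
    intro i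
    have hdense : Dense ((Subtype.val : U i → Γ) ⁻¹' (Set.range π)) :=
      Dense.preimage hπ (hUo i).isOpenMap_subtype_val
    have h1 := Continuous.ext_on hdense (det_cont (hc i))
      (hδc.comp continuous_subtype_val) (by
        rintro ⟨x, hx⟩ ⟨φ, hφ⟩
        change LinearMap.det (ρ i ⟨x, hx⟩) = ((δ x : kˣ) : k)
        have hφ' : π φ = x := hφ
        subst hφ'
        rw [hδ, det_of_charpoly, hatt i φ hx])
    exact fun u => congrFun h1 u
  have hctsN : ∀ i, Cts (resN (hU i) (ρ i)) := fun i v => (hc i v).comp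
    (continuous_subtype_val.subtype_mk _)
  let cg : Γ → (N →* N) := fun g => (MulAut.conjNormal g).toMonoidHom
  have hcg : ∀ (g : Γ) (x : N), ((cg g x : N) : Γ) = g * x * g⁻¹ := fun g x =>
    MulAut.conjNormal_apply g x
  have hcgs : ∀ g, Function.Surjective (cg g) := fun g => (MulAut.conjNormal g).surjective
  -- all characters agree
  have hchar : ∀ i j g, (resN (hU i) (ρ i)).character =
      Representation.character ((resN (hU j) (ρ j)).comp (cg g) :
        Representation k N (Fin n → k)) := by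
    intro i j g
    have hctsN' : Cts ((resN (hU j) (ρ j)).comp (cg g) : Representation k N (Fin n → k)) := by
      intro v
      refine (hctsN j v).comp ?_
      refine Continuous.subtype_mk ?_ _
      change Continuous fun x : N => g * (x : Γ) * g⁻¹
      exact (continuous_const.mul continuous_subtype_val).mul continuous_const
    have hdense : Dense ((Subtype.val : N → Γ) ⁻¹' (Set.range π)) :=
      Dense.preimage hπ hNo.isOpenMap_subtype_val
    refine Continuous.ext_on hdense (char_cont (hctsN i)) (char_cont hctsN') ?_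
    rintro ⟨x, hx⟩ ⟨φ, hφ⟩
    have hφ' : π φ = x := hφ
    subst hφ'
    apply trace_of_charpoly
    obtain ⟨φ', h1, h2⟩ := hconj φ g
    have h3 := hatt i φ (hU i hx)
    have h4 : π φ' ∈ U j := by
      rw [h1]
      exact hU j (hNn.conj_mem _ hx g)
    have h5 := hatt j φ' h4
    have h6 : (⟨π φ', h4⟩ : U j) = ⟨g * π φ * g⁻¹, hU j (hNn.conj_mem _ hx g)⟩ := Subtype.ext h1
    rw [h6, h2] at h5
    exact h3.trans h5.symm
  -- the reference representation
  let i₀ : ι := Classical.arbitrary ι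
  let ρ₀ : Representation k N (Fin n → k) := resN (hU i₀) (ρ i₀)
  have he : ∀ i, Nonempty (Representation.Equiv (resN (hU i) (ρ i)) ρ₀) := by
    intro i
    refine equiv_of_char _ _ (semi_of_irr (hirr i)) (semi_of_irr (hirr i₀)) ?_
    rw [hchar i i₀ 1]
    have h1 : cg 1 = MonoidHom.id N := by
      refine MonoidHom.ext fun x => Subtype.ext ?_
      rw [hcg, one_mul, inv_one, mul_one]
      rfl
    rw [h1]
    rfl
  let ρu : N →* ((Fin n → k) →ₗ[k] (Fin n → k))ˣ := MonoidHom.toHomUnits ρ₀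
  let r : Γ → ((Fin n → k) →ₗ[k] (Fin n → k))ˣ := fun x => if h : x ∈ N then ρu ⟨x, h⟩ else 1
  have hr : ∀ (x : Γ) (hx : x ∈ N), r x = ρu ⟨x, hx⟩ := fun x hx => dif_pos hx
  have hrm : IsMulOn N r := by
    intro x hx y hy
    rw [hr x hx, hr y hy, hr _ (N.mul_mem hx hy), ← map_mul]
    rfl
  have hschur : ∀ A : ((Fin n → k) →ₗ[k] (Fin n → k))ˣ, (∀ x ∈ N, A * r x = r x * A) →
      ∃ c : kˣ, A = sc c := by
    intro A hA
    obtain ⟨c, hc'⟩ := hcomm i₀ (A : (Fin n → k) →ₗ[k] (Fin n → k)) (fun x => by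
      have h1 := congrArg Units.val (hA x x.2)
      rw [hr _ x.2] at h1
      exact h1)
    have hc0 : c ≠ 0 := by
      rintro rfl
      rw [zero_smul] at hc'
      exact A.ne_zero hc'
    refine ⟨Units.mk0 c hc0, Units.ext ?_⟩
    rw [hc', sc_val]
    rfl
  have hinv : ∀ g : Γ, ∃ A : ((Fin n → k) →ₗ[k] (Fin n → k))ˣ, (g, A) ∈ conjGroup N r := by
    intro g
    obtain ⟨e⟩ := equiv_of_char _ _ (semi_of_irr (hirr i₀))
      (semi_surj ρ₀ (cg g) (hcgs g) (semi_of_irr (hirr i₀))) (hchar i₀ i₀ g)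
    let A : ((Fin n → k) →ₗ[k] (Fin n → k))ˣ :=
      { val := e.toLinearEquiv.toLinearMap
        inv := e.toLinearEquiv.symm.toLinearMap
        val_inv := by
          refine LinearMap.ext fun v => ?_
          exact e.toLinearEquiv.apply_symm_apply v
        inv_val := by
          refine LinearMap.ext fun v => ?_
          exact e.toLinearEquiv.symm_apply_apply v }
    refine ⟨A, fun x hx => ?_⟩
    change A * r x * A⁻¹ = r (g * x * g⁻¹)
    rw [mul_inv_eq_iff_eq_mul, hr x hx, hr _ (hNn.conj_mem x hx g)]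
    apply Units.ext
    refine LinearMap.ext fun v => ?_
    exact IntertwiningMap.isIntertwining _ _ e.toIntertwiningMap ⟨x, hx⟩ v
  obtain ⟨R₀, hR₀, hR₀d⟩ := ext_det (Δ := N) (r := r) hrm hschur hinv δ (fun u hu => by
      apply Units.ext
      rw [hr u hu]
      exact hdet i₀ ⟨u, hU i₀ hu⟩) (by
      rw [finrank_fin_fun]
      exact hcop)
  let R : Representation k Γ (Fin n → k) :=
    (Units.coeHom ((Fin n → k) →ₗ[k] (Fin n → k))).comp R₀
  -- comparison on a subgroup
  have hcomp : ∀ (H : Subgroup Γ) (hNH : N ≤ H) (T : Representation k H (Fin n → k)),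
      (∀ x (hx : x ∈ N), T ⟨x, hNH hx⟩ = ρ₀ ⟨x, hx⟩) →
      (∀ u : H, LinearMap.det (T u) = ((δ (u : Γ) : kˣ) : k)) → ∀ u : H, T u = R u := by
    intro H hNH T hT hTd u
    let Tu : H →* ((Fin n → k) →ₗ[k] (Fin n → k))ˣ := MonoidHom.toHomUnits T
    have hTN : ∀ x (hx : x ∈ N), Tu ⟨x, hNH hx⟩ = r x := by
      intro x hx
      rw [hr x hx]
      exact Units.ext (hT x hx)
    have h1 : ((u : Γ), Tu u) ∈ conjGroup N r := by
      intro x hx
      change Tu u * r x * (Tu u)⁻¹ = r ((u : Γ) * x * (u : Γ)⁻¹)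
      rw [← hTN x hx, ← hTN _ (hNn.conj_mem x hx u), ← map_inv, ← map_mul, ← map_mul]
      rfl
    have h2 : ((u : Γ), R₀ u) ∈ conjGroup N r := by
      intro x hx
      change R₀ u * r x * (R₀ u)⁻¹ = r ((u : Γ) * x * (u : Γ)⁻¹)
      rw [← hR₀ x hx, ← hR₀ _ (hNn.conj_mem x hx u), ← map_inv, ← map_mul, ← map_mul]
    have h3 : Tu u ^ N.index = R₀ u ^ N.index := by
      have h4 : (u : Γ) ^ N.index ∈ N := Subgroup.pow_index_mem N (u : Γ)
      rw [← map_pow, ← map_pow, hR₀ _ h4, ← hTN _ h4]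
      rfl
    have h5 : dt (Tu u) = dt (R₀ u) := by
      rw [hR₀d]
      apply Units.ext
      exact hTd u
    have h6 := uniq_det hschur h1 h2 (m := N.index) (by
      rw [finrank_fin_fun]
      exact hcop) h3 h5
    exact congrArg Units.val h6
  refine ⟨R, ?_, ?_, ?_, ?_⟩
  · refine cts_of_open_g R N hNo (fun v => ?_)
    have h1 : ∀ x : N, R (x : Γ) = ρ₀ x := by
      intro x
      change ((R₀ (x : Γ) : ((Fin n → k) →ₗ[k] (Fin n → k))ˣ) : (Fin n → k) →ₗ[k] (Fin n → k)) = _
      rw [hR₀ x x.2, hr x x.2]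
      rfl
    simp_rw [h1]
    exact hctsN i₀ v
  · intro g
    exact congrArg Units.val (hR₀d g)
  · intro i
    obtain ⟨e⟩ := he i
    have h1 := hcomp (U i) (hU i) (tp (ρ i) e.toLinearEquiv) (fun x hx => tp_eq e ⟨x, hx⟩)
      (fun u => by rw [det_tp, hdet])
    have h2 : (MonoidHom.comp R (U i).subtype : Representation k (U i) (Fin n → k)) =
        tp (ρ i) e.toLinearEquiv := by
      refine MonoidHom.ext fun u => ?_
      exact (h1 u).symm
    rw [h2]
    exact ⟨(tpEquiv (ρ i) e.toLinearEquiv).symm⟩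
  · rintro R' hR'd ⟨i, ⟨e⟩⟩
    obtain ⟨e'⟩ := he i
    let f : (Fin n → k) ≃ₗ[k] (Fin n → k) := e.toLinearEquiv.trans e'.toLinearEquiv
    have h0 : ∀ x (hx : x ∈ N), tp R' f x = ρ₀ ⟨x, hx⟩ := by
      intro x hx
      have h1 := tp_eq e' ⟨x, hx⟩
      have h2 := tp_eq e ⟨x, hU i hx⟩
      rw [← h1]
      refine LinearMap.ext fun v => ?_
      change e'.toLinearEquiv (e.toLinearEquiv (R' x (e.toLinearEquiv.symm
        (e'.toLinearEquiv.symm v)))) = e'.toLinearEquiv (ρ i ⟨x, hU i hx⟩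
          (e'.toLinearEquiv.symm v))
      rw [← h2]
      rfl
    have h1 := hcomp ⊤ le_top (MonoidHom.comp (tp R' f) (⊤ : Subgroup Γ).subtype) h0
      (fun u => (det_tp R' f u).trans (hR'd u))
    have h2 : tp R' f = R := by
      refine MonoidHom.ext fun g => ?_
      exact h1 ⟨g, Subgroup.mem_top g⟩
    have e'' := tpEquiv R' f
    rw [h2] at e''
    exact ⟨e''⟩

end Pool.Agent.Q227.KM
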