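import Pool.Agent.Q227.KM.B

/-!
# The two-dimensional case
-/

set_option autoImplicit false
set_option linter.unusedSectionVars false

namespace Pool.Agent.Q227.KM

open Module Polynomial

section two

variable {k : Type} [Field k]

/-- the sum of the `f`-th powers of the roots of `X ^ 2 - a X + c` -/
def tpow (a c : k) : ℕ → k
  | 0 => 2
  | 1 => a
  | (f + 2) => a * tpow a c (f + 1) - c * tpow a c f

theorem charpoly_two (T : (Fin 2 → k) →ₗ[k] (Fin 2 → k)) :
    T.charpoly = X ^ 2 - C (LinearMap.trace k _ T) * X + C (LinearMap.det T) := by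
  rw [← LinearMap.charpoly_toMatrix T (Pi.basisFun k (Fin 2)), Matrix.charpoly_fin_two,
    LinearMap.trace_eq_matrix_trace k (Pi.basisFun k (Fin 2)), LinearMap.det_toMatrix]

theorem trace_pow_two (T : (Fin 2 → k) →ₗ[k] (Fin 2 → k)) (f : ℕ) :
    LinearMap.trace k _ (T ^ f) = tpow (LinearMap.trace k _ T) (LinearMap.det T) f := by
  induction f using Nat.twoStepInduction with
  | zero =>
    rw [pow_zero, LinearMap.trace_one, finrank_fin_fun]
    rfl
  | one => rw [pow_one]; rfl
  | more f h1 h2 =>
    rw [tpow, ← h1, ← h2]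
    have h3 := LinearMap.aeval_self_charpoly T
    rw [charpoly_two, map_add, map_sub, map_mul, map_pow, aeval_X, aeval_C, aeval_C] at h3
    have h4 : T ^ (f + 2) = (LinearMap.trace k _ T) • T ^ (f + 1) - (LinearMap.det T) • T ^ f := by
      have h5 : T ^ 2 = (LinearMap.trace k _ T) • T - (LinearMap.det T) • 1 := by
        rw [Algebra.algebraMap_eq_smul_one, Algebra.algebraMap_eq_smul_one, smul_mul_assoc,
          one_mul] at h3
        rw [← sub_eq_zero, ← h3]
        abel
      rw [pow_add, h5, mul_sub, mul_smul_comm, mul_smul_comm, mul_one, pow_succ]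
    rw [h4, map_sub, map_smul, map_smul]
    rfl

theorem aroots_two {a c : k} {f : ℕ} {T : (Fin 2 → k) →ₗ[k] (Fin 2 → k)}
    (h1 : LinearMap.trace k _ T = tpow a c f) (h2 : LinearMap.det T = c ^ f) :
    T.charpoly.aroots (AlgebraicClosure k) =
      ((X ^ 2 - C a * X + C c : k[X]).aroots (AlgebraicClosure k)).map fun x => x ^ f := by
  have hd : (X ^ 2 - C a * X + C c : k[X]).natDegree = 2 := by compute_degree!
  have hm : (X ^ 2 - C a * X + C c : k[X]).Monic := by monicity!
  obtain ⟨A, hA⟩ := exists_end hm hd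
  rw [charpoly_two] at hA
  have e1 : LinearMap.det A = c := by
    have h3 := congrArg (fun p : k[X] => p.coeff 0) hA
    simpa using h3
  have e2 : LinearMap.trace k _ A = a := by
    have h3 := congrArg (fun p : k[X] => p.coeff 1) hA
    simpa [coeff_X, coeff_one, coeff_C] using h3
  have h3 : T.charpoly = (A ^ f).charpoly := by
    rw [charpoly_two, charpoly_two, h1, h2, trace_pow_two, e1, e2, map_pow LinearMap.det A f, e1]
  rw [h3, aroots_pow, charpoly_two, e1, e2]

end two

end Pool.Agent.Q227.KM
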