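import Pool.Agent.Q227.KM.F
import Pool.Agent.Q227.KM.T

/-!
# Families over a number field, arithmetic Frobenius elements
-/

set_option autoImplicit false
set_option linter.unusedSectionVars false

namespace Pool.Agent.Q227.KM

open Representation Module Polynomial Pool.Agent.Q15.GR Pool.Agent.Q227.CD
open NumberField IsDedekindDomain Pool.Agent.W401.Cheb

variable {K : Type} [Field K] [NumberField K] {k : Type} [Field k] [CharZero k]
  [TopologicalSpace k] [IsTopologicalRing k] [T2Space k] {n : ℕ}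

/-- **families over a number field** -/
theorem family_nt (hn : 0 < n) (N : Subgroup (GK K)) [hNn : N.Normal]
    (hNo : IsOpen (N : Set (GK K))) (hcop : Nat.Coprime N.index n) {ι : Type} [Nonempty ι]
    (U : ι → Subgroup (GK K)) (hU : ∀ i, N ≤ U i) {S : Set (HeightOneSpectrum (𝓞 K))}
    (hS : S.Finite) (P : HeightOneSpectrum (𝓞 K) → k[X]) (δ : GK K →* kˣ)
    (hδc : Continuous fun g => (δ g : k))
    (hδ : ∀ v ∉ S, ∀ σ, IsFrob v σ → ((δ σ : kˣ) : k) = (-1) ^ n * (P v).coeff 0)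
    (ρ : ∀ i, Representation k (U i) (Fin n → k)) (hc : ∀ i, Cts (ρ i))
    (hirr : ∀ i, (resN (hU i) (ρ i)).IsIrreducible)
    (hcomm : ∀ (i : ι) (T : (Fin n → k) →ₗ[k] (Fin n → k)), (∀ x : N, T ∘ₗ resN (hU i) (ρ i) x =
      resN (hU i) (ρ i) x ∘ₗ T) → ∃ c : k, T = c • LinearMap.id)
    (hin : ∀ i, ∀ v ∉ S, ∀ σ : U i, IsInert v (σ : GK K) → ρ i σ = 1)
    (hatt : ∀ i, ∀ v ∉ S, ∀ σ : U i, IsFrob v (σ : GK K) → (ρ i σ).charpoly = P v) :
    ∃ R : Representation k (GK K) (Fin n → k), Cts R ∧ (∀ g, LinearMap.det (R g) = (δ g : k)) ∧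
      (∀ i, Nonempty (Representation.Equiv
        (MonoidHom.comp R (U i).subtype : Representation k (U i) (Fin n → k)) (ρ i))) ∧
      (∀ R' : Representation k (GK K) (Fin n → k), (∀ g, LinearMap.det (R' g) = (δ g : k)) →
        (∃ i, Nonempty (Representation.Equiv
          (MonoidHom.comp R' (U i).subtype : Representation k (U i) (Fin n → k)) (ρ i))) →
        Nonempty (Representation.Equiv R' R)) ∧
      ∀ v ∉ S, (∀ σ, IsInert v σ → (∃ i, σ ∈ U i) → R σ = 1) ∧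
        ((∀ σ, IsInert v σ → ∃ i, σ ∈ U i) → (∃ σ, IsFrob v σ ∧ ∃ i, σ ∈ U i) →
          ∀ σ, IsFrob v σ → (R σ).charpoly = P v) := by
  classical
  haveI : Finite (GK K ⧸ N) := Subgroup.quotient_finite_of_isOpen _ hNo
  haveI hNf : N.FiniteIndex := Subgroup.finiteIndex_of_finite_quotient
  let Φ : Type := {p : HeightOneSpectrum (𝓞 K) × GK K // p.1 ∉ S ∧ IsFrob p.1 p.2}
  let π : Φ → GK K := fun φ => φ.1.2
  have hdense : DenseRange π := by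
    have h2 : (Set.range π) = {σ : GK K | ∃ v ∉ S, IsFrob v σ} := by
      ext σ
      constructor
      · rintro ⟨φ, rfl⟩
        exact ⟨φ.1.1, φ.2.1, φ.2.2⟩
      · rintro ⟨v, hv, hσ⟩
        exact ⟨⟨(v, σ), hv, hσ⟩, rfl⟩
    rw [DenseRange, h2]
    exact frob_dense S hS
  obtain ⟨R, h1, h2, h3, h4⟩ := family hn N hNo hcop U hU π hdense (fun φ => P φ.1.1)
    (fun φ g => ⟨⟨(φ.1.1, g * φ.1.2 * g⁻¹), φ.2.1,
      isFrobPow_one.1 (isFrobPow_conj (isFrobPow_one.2 φ.2.2) g)⟩, rfl, rfl⟩) δ hδc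
    (fun φ => hδ φ.1.1 φ.2.1 φ.1.2 φ.2.2) ρ hc hirr hcomm
    (fun i φ h => hatt i φ.1.1 φ.2.1 ⟨φ.1.2, h⟩ φ.2.2)
  have hin' : ∀ v ∉ S, ∀ σ, IsInert v σ → (∃ i, σ ∈ U i) → R σ = 1 := by
    rintro v hv σ hσ ⟨i, hi⟩
    obtain ⟨e⟩ := h3 i
    refine LinearMap.ext fun x => ?_
    apply e.toLinearEquiv.injective
    have h6 : e (R σ x) = ρ i ⟨σ, hi⟩ (e x) :=
      IntertwiningMap.isIntertwining _ _ e.toIntertwiningMap ⟨σ, hi⟩ x
    rw [hin i v hv ⟨σ, hi⟩ hσ] at h6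
    exact h6
  refine ⟨R, h1, h2, h3, h4, fun v hv => ⟨hin' v hv, ?_⟩⟩
  rintro hI ⟨σ₀, hσ₀, i, hi⟩ σ hσ
  obtain ⟨e⟩ := h3 i
  have h5 : (R σ₀).charpoly = P v := by
    have h6 : ρ i ⟨σ₀, hi⟩ = e.toLinearEquiv.conj (R σ₀) := by
      have h7 := tp_eq e ⟨σ₀, hi⟩
      rw [← h7]
      rfl
    rw [← hatt i v hv ⟨σ₀, hi⟩ hσ₀, h6, LinearEquiv.charpoly_conj]
  obtain ⟨g, ι', hι, rfl⟩ := (Pool.Agent.W401.Frob.main K).2.1 v σ₀ σ hσ₀ hσ
  have h6 : R (g * σ₀ * g⁻¹ * ι') = R g ∘ₗ R σ₀ ∘ₗ R g⁻¹ := by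
    rw [map_mul, hin' v hv ι' hι (hI ι' hι), mul_one, map_mul, map_mul, mul_assoc]
    rfl
  let E : (Fin n → k) ≃ₗ[k] (Fin n → k) :=
    LinearEquiv.ofLinear (R g) (R g⁻¹) (by
      change R g * R g⁻¹ = 1
      rw [← map_mul, mul_inv_cancel, map_one]) (by
      change R g⁻¹ * R g = 1
      rw [← map_mul, inv_mul_cancel, map_one])
  have h7 : R g ∘ₗ R σ₀ ∘ₗ R g⁻¹ = E.conj (R σ₀) := rfl
  rw [h6, h7, LinearEquiv.charpoly_conj, h5]

end Pool.Agent.Q227.KM
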